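import Pool.Agent.TH652.Dual7

/-!
# The Charney-Davis inequality for flag homology spheres in the class `AQ`

Right-angled case: `chiW G` is the sum of `(-1/2)^{|T|}` over all simplices `T` of the flag complex of `G`, the empty
one included, that is, the quantity `ω(S)` of the problem with all edge weights equal to `2`.

The class `AQ (2 m)` contains every flag complex for which the vertices whose links are not in the class
`AQ (2 m - 1)` span a subcomplex of dimension at most `m - 1`.
-/

set_option autoImplicit false

namespace Pool.Agent.Results.MP_375bfa_co.LocallyGoodSpheres

open Pool.Agent.W907.SG Pool.Agent.TH652.Above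

/-- The Charney-Davis inequality for the flag homology `(2 m - 1)`-spheres in the class `AQ (2 m)`. -/
theorem result : ∀ (m : ℕ) (V : Type) [Fintype V] [LinearOrder V] (G : SimpleGraph V), HSph (2 * m) G →
    AQ (2 * m) G → 0 ≤ (-1 : ℚ) ^ m * chiW G :=
  fun _ _ _ _ _ hS hA => charney_davis_AQ hS hA

end Pool.Agent.Results.MP_375bfa_co.LocallyGoodSpheres
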