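import Pool.Agent.TH208.GJ.Omega

/-!
# The Charney-Davis conjecture is equivalent to itself with a sublinear error term

A flag homology sphere over all fields is a flag generalized homology sphere (integral homology).
Let `ω(S) = ∑_σ (-1/2)^|σ|`, the sum over the simplices `σ` of `S`, the empty one included, and let
`f₀` be the number of vertices. For every `p` the following are equivalent:
* `(-1)^p ω(S) ≥ 0` for every flag generalized homology `(2p-1)`-sphere `S`;
* there is an `l` such that `(-1)^(p+l) ω(T) ≥ - o(f₀(T) ^ (l + 1))` for the flag generalized homology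
  `(2p+2l-1)`-spheres `T`.

In particular (`l = 0`) the right-angled case of the inequality holds in a given dimension if and
only if `(-1)^p ω(S) ≥ - o(f₀(S))` in this dimension.
-/

set_option autoImplicit false

namespace Pool.Agent.Results.MP_375bfa_co.SublinearError

open Pool.Agent.W497.FS Pool.Agent.TH208.GJ

/-- all fields -/
abbrev AllFields : Type 1 := (k : Type) ×' Field k

instance (x : AllFields) : Field x.1 := x.2

theorem result (p : ℕ) :
    (∀ (n : ℕ) (S : Finset (Finset (Fin n))),
      (∀ (k : Type) [Field k], IsFlagSphere k (2 * p) S) → 0 ≤ (-1 : ℚ) ^ p * omega S) ↔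
    (∃ l : ℕ, ∀ ε : ℝ, 0 < ε → ∃ C : ℝ, ∀ (n : ℕ) (T : Finset (Finset (Fin n))),
      (∀ (k : Type) [Field k], IsFlagSphere k (2 * (p + l)) T) →
        -(ε * (numVert T : ℝ) ^ (l + 1) + C) ≤ (((-1 : ℚ) ^ (p + l) * omega T : ℚ) : ℝ)) := by
  constructor
  · intro h
    refine ⟨0, fun ε hε => ⟨0, fun n T hT => ?_⟩⟩
    have h1 : (0 : ℝ) ≤ (((-1 : ℚ) ^ (p + 0) * omega T : ℚ) : ℝ) := by
      exact_mod_cast h n T hT
    have h2 : 0 ≤ ε * (numVert T : ℝ) ^ (0 + 1) := by positivity
    linarith
  · rintro ⟨l, hl⟩ n S hS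
    obtain ⟨G, hG⟩ := exists_isG (hS ℚ)
    have h0 : 0 ≤ G.coeff p := by
      refine key (K := fun x : AllFields => x.1) (l := l) (d := 2 * p) (i := p)
        ⟨ℚ, inferInstance⟩ ?_ ?_ (fun x => hS x.1) hG
      · intro ε hε
        obtain ⟨C, hC⟩ := hl (ε / 4 ^ (p + l)) (by positivity)
        refine ⟨C * 4 ^ (p + l), fun n T G hT hG => ?_⟩
        have e1 : 2 * (p + l) = 2 * p + 2 * l := by ring
        have hT' : ∀ (k : Type) [Field k], IsFlagSphere k (2 * (p + l)) T := by
          intro k hk
          rw [e1]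
          exact hT ⟨k, hk⟩
        have h1 := hC n T hT'
        rw [← e1] at hG
        have h2 := omega_isG (hT' ℚ) hG
        have h3 : (((-1 : ℚ) ^ (p + l) * omega T : ℚ) : ℝ) * 4 ^ (p + l) =
            (G.coeff (p + l) : ℝ) := by
          exact_mod_cast h2
        rw [← h3]
        have h4 : (0 : ℝ) < 4 ^ (p + l) := by positivity
        have h5 := mul_le_mul_of_nonneg_right h1 h4.le
        have h6 : -(ε / 4 ^ (p + l) * (numVert T : ℝ) ^ (l + 1) + C) * 4 ^ (p + l) =
            -(ε * (numVert T : ℝ) ^ (l + 1) + C * 4 ^ (p + l)) := by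
          field_simp
        rw [h6] at h5
        exact h5
      · intro d' hd' n T G' hT hG'
        rw [hG'.2 p (by omega)]
    have h1 := omega_isG (hS ℚ) hG
    have h2 : (0 : ℚ) ≤ (G.coeff p : ℚ) := by exact_mod_cast h0
    rw [← h1] at h2
    exact nonneg_of_mul_nonneg_left h2 (by positivity)

end Pool.Agent.Results.MP_375bfa_co.SublinearError
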